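import Pool.Agent.helper20.VVO.Spec2

/-!
# Project vvo (MP_069684_lc), row FNX: the theorem, second part
-/

set_option autoImplicit false

open Filter Topology

namespace Pool.Agent.VVO

open Pool.Agent.PB Pool.Agent.ISO Pool.Agent.ISA

theorem FNX_pp (L : Lang) (h : InPPoly L) : InNPPoly L := by
  obtain ⟨c, hc⟩ := h
  refine ⟨c, fun n => ⟨0, Nat.zero_le _, L n, hc n, fun x => ?_⟩⟩
  have h1 : ∀ y : Fin 0 → Bool, (Fin.append x y : Fin (n + 0) → Bool) = x := by
    intro y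
    funext i
    exact Fin.append_left x y i
  constructor
  · intro h2
    refine ⟨fun i => i.elim0, ?_⟩
    rw [h1]
    exact h2
  · rintro ⟨y, hy⟩
    rw [h1] at hy
    exact hy

theorem FNX_cc (L : Lang) : PB.compl (PB.compl L) = L := by
  funext n x
  simp [PB.compl]

/-- short witnesses -/
theorem FNX_short (hCIR : ISO.CIR_stmt) (m : ℕ → ℕ) (A : ℕ → Set ℕ) (p : ℕ → ℝ) (h : AllPrun m A p) :
    AllPrunS m A p := by
  intro w V c hV
  refine h w V (c + 1) fun n => ?_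
  obtain ⟨h1, h2⟩ := hV n
  rcases Nat.eq_zero_or_pos n with hn | hn
  · subst hn
    refine ⟨by omega, hCIR.2.2.1 _ _ _ _ h2 ?_⟩
    have h3 : 0 ^ c ≤ 1 := by
      rcases Nat.eq_zero_or_pos c with hc | hc
      · subst hc; simp
      · rw [zero_pow (by omega)]; exact Nat.zero_le _
    omega
  · have h4 : n ^ c ≤ n ^ (c + 1) := Nat.pow_le_pow_right hn (by omega)
    have h5 : n ≤ n ^ (c + 1) := by
      calc n = n ^ 1 := (pow_one n).symm
        _ ≤ n ^ (c + 1) := Nat.pow_le_pow_right hn (by omega)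
    exact ⟨by omega, hCIR.2.2.1 _ _ _ _ h2 (by omega)⟩

/-- polynomial bounds -/
theorem FNX_poly (c a c' n : ℕ) : (n + max 1 ((n ^ a) ^ c)) ^ c' + c' ≤
    n ^ ((a * c + 3) * c' + 2 ^ c' + c') + ((a * c + 3) * c' + 2 ^ c' + c') := by
  rcases Nat.lt_or_ge n 2 with hn | hn
  · have h1 : max 1 ((n ^ a) ^ c) = 1 := by
      refine max_eq_left ?_
      rw [← pow_mul]
      exact pow_le_one₀ (Nat.zero_le _) (by omega)
    rw [h1]
    have h2 : (n + 1) ^ c' ≤ 2 ^ c' := Nat.pow_le_pow_left (by omega) _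
    omega
  · have h1 : n + max 1 ((n ^ a) ^ c) ≤ n ^ (a * c + 3) := by
      rw [← pow_mul]
      have h2 : 1 ≤ n ^ (a * c) := Nat.one_le_pow _ _ (by omega)
      have h3 : n ^ (a * c) ≤ n ^ (a * c + 1) := Nat.pow_le_pow_right (by omega) (by omega)
      have h4 : n ≤ n ^ (a * c + 1) := by
        calc n = n ^ 1 := (pow_one n).symm
          _ ≤ n ^ (a * c + 1) := Nat.pow_le_pow_right (by omega) (by omega)
      have h5 : 4 * n ^ (a * c + 1) ≤ n ^ (a * c + 3) := by
        have e : n ^ (a * c + 3) = n ^ 2 * n ^ (a * c + 1) := by ring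
        rw [e]
        exact Nat.mul_le_mul_right _ (by
          calc 4 = 2 ^ 2 := by norm_num
            _ ≤ n ^ 2 := Nat.pow_le_pow_left hn _)
      rw [max_eq_right h2]
      omega
    have h6 : (n + max 1 ((n ^ a) ^ c)) ^ c' ≤ n ^ ((a * c + 3) * c') := by
      rw [pow_mul]
      exact Nat.pow_le_pow_left h1 _
    have h7 : n ^ ((a * c + 3) * c') ≤ n ^ ((a * c + 3) * c' + 2 ^ c' + c') :=
      Nat.pow_le_pow_right (by omega) ((Nat.le_add_right _ _).trans (Nat.le_add_right _ _))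
    exact add_le_add (h6.trans h7) (Nat.le_add_left _ _)

/-- the logarithm of a polynomial -/
theorem FNX_log (c : ℕ) (ε : ℝ) (hε1 : ε < 1) :
    ∀ᶠ n : ℕ in atTop, Real.log ((max 1 (n ^ c) : ℕ) : ℝ) ≤ (n : ℝ) ^ (1 - ε) := by
  have h1 : ∀ᶠ x : ℝ in atTop, ‖Real.log x‖ ≤ (1 / ((c : ℝ) + 1)) * ‖x ^ (1 - ε)‖ :=
    (isLittleO_log_rpow_atTop (by linarith : 0 < 1 - ε)).def (by positivity)
  have h2 := tendsto_natCast_atTop_atTop.eventually h1
  filter_upwards [h2, eventually_ge_atTop 1] with n hn hn1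
  have hn1' : (1 : ℝ) ≤ n := by exact_mod_cast hn1
  have e : max 1 (n ^ c) = n ^ c := max_eq_right (Nat.one_le_pow _ _ (by omega))
  rw [e]
  push_cast
  rw [Real.log_pow]
  have h3 : 0 ≤ Real.log n := Real.log_nonneg hn1'
  have h4 : (0 : ℝ) ≤ (n : ℝ) ^ (1 - ε) := Real.rpow_nonneg (by linarith) _
  rw [Real.norm_eq_abs, Real.norm_eq_abs, abs_of_nonneg h3, abs_of_nonneg h4] at hn
  have h5 : (0 : ℝ) ≤ c := Nat.cast_nonneg c
  calc (c : ℝ) * Real.log n ≤ c * ((1 / ((c : ℝ) + 1)) * (n : ℝ) ^ (1 - ε)) :=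
        mul_le_mul_of_nonneg_left hn h5
    _ = (c / (c + 1)) * (n : ℝ) ^ (1 - ε) := by ring
    _ ≤ 1 * (n : ℝ) ^ (1 - ε) := by
        refine mul_le_mul_of_nonneg_right ?_ h4
        rw [div_le_one (by positivity)]
        linarith
    _ = _ := one_mul _

theorem FNX (hDPX : DPX_stmt) (hNPX : NPX_stmt) (hVVG : VVG_stmt) (hVVN : VVN_stmt) (hVVA : ISO.VVA_stmt)
    (hLEX : ISA.LEX_stmt) (hUPX : UPX_stmt) (hTWO : ISO.TWO_stmt) (hLIM : ISO.LIM_stmt)
    (hTRN : ISA.TRN_stmt) (hTHA : ISA.THA_stmt) (hCIR : ISO.CIR_stmt) : FNX_stmt := by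
  refine ⟨?_, ?_, hUPX, ?_, ?_, ?_⟩
  · intro ε j c m p hε hj hm hp hev
    have key : AllPrunS m (fun _ => Set.Icc 1 j) p → ∀ L : Lang, InPPoly L ↔ InNPPoly L := by
      intro hall L
      refine ⟨FNX_pp L, ?_⟩
      set ε' : ℝ := min ε (1 / 2) with hε'
      have h0 : 0 < ε' := lt_min hε (by norm_num)
      have h1 : ε' < 1 := (min_le_right _ _).trans_lt (by norm_num)
      have h2 : ε' ≤ ε := min_le_left _ _
      have hD := hDPX ε' j m (fun n => max 1 (n ^ c)) p h0 h1 hj hm (fun n => le_max_left _ _)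
        (FNX_log c ε' h1) (by
          filter_upwards [hev, eventually_ge_atTop 1] with n hn hn1
          have e : max 1 (n ^ c) = n ^ c := max_eq_right (Nat.one_le_pow _ _ (by omega))
          rw [e]
          refine le_trans ?_ hn
          have h3 : 1 ≤ min (m n) (n ^ c) := le_min (hm n) (Nat.one_le_pow _ _ (by omega))
          have h4 := (hTHA (min (m n) (n ^ c)) (Set.Icc 1 j) h3 ⟨le_refl 1, hj⟩).2.2.1
          exact mul_le_mul_of_nonneg_right (by linarith) h4.le) hall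
      have hPU : PU := by
        intro c1
        obtain ⟨a, c', hc'⟩ := hD c1
        refine ⟨(a * c + 3) * c' + 2 ^ c' + c', fun n w f hw hf => ?_⟩
        obtain ⟨D, hD1, hD2, hD3⟩ := hc' n w f hw hf
        exact ⟨D, hCIR.2.2.1 _ _ _ _ hD1 (FNX_poly c a c' n), hD2, hD3⟩
      exact hVVA hPU L
    have back : (∀ L : Lang, InPPoly L ↔ InNPPoly L) → AllPrun m (fun _ => Set.Icc 1 j) p := by
      intro hL
      exact hLEX (fun A hA => (hL A).2 hA) m _ p (fun n => ⟨le_refl 1, hj⟩) hp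
    exact ⟨⟨fun h => key (FNX_short hCIR m _ p h), back⟩, key, fun h => FNX_short hCIR m _ p (back h)⟩
  · intro ε j m μ p hε hε1 hj hm hμ hlog hev hall
    have hPUN : PUN := hNPX ε j m μ p hε hε1 hj hm hμ hlog hev hall
    have h1 := hVVN hPUN
    refine ⟨fun L => ⟨h1 L, fun hL => ?_⟩, hVVG μ (hDPX ε j m μ p hε hε1 hj hm hμ hlog hev hall)⟩
    have h2 := h1 _ hL
    rw [FNX_cc] at h2
    exact h2
  · rw [hTRN.2.2.1 2]
    exact hTWO
  · intro m j h1 h2
    rw [hTRN.2.1 m j]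
    exact hLIM.1 m j h1 h2
  · intro j hj
    have h := hLIM.2 j hj
    have e : (fun m : ℕ => crit m (Set.Icc 1 j) * Real.log m) = fun m : ℕ => theta m j * Real.log m := by
      funext m
      rw [hTRN.2.1 m j]
    rw [e]
    exact h

end Pool.Agent.VVO
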