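import Pool.Agent.helper20.VVO.Spec
import Pool.Agent.helper43.ISA.PUB
import Pool.Agent.helper53.PB.DNF
import Pool.Agent.helper79.PB.CLP
import Pool.Agent.helper32.PB.CMP
import Pool.Agent.helper30.PB.SUB
import Pool.Agent.helper97.PB.APP

/-!
Row NPB of project VVO: nondeterministic circuits from a pruning with a large probability.
-/

set_option autoImplicit false

open Filter Topology

namespace Pool.Agent.VVO

open Pool.Agent.PB Pool.Agent.ISO Pool.Agent.ISA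

/-- the choice of the length `N = n ^ a` -/
theorem NPB_kn (ε : ℝ) (a n ρ k : ℕ) (x : ℝ) (hn : 1 ≤ n) (hρ : ρ ≤ n) (ha : 4 ≤ (a : ℝ) * ε) (_hε : 0 < ε)
    (hx : x ≤ ((n ^ a : ℕ) : ℝ) ^ (1 - ε)) (hk : (k : ℝ) ≤ ρ * x) : k * n ≤ n ^ a := by
  have hn' : (1 : ℝ) ≤ n := by exact_mod_cast hn
  have h0 : (0 : ℝ) < n := by linarith
  have hρ' : (ρ : ℝ) ≤ n := by exact_mod_cast hρ
  have h1 : ((n ^ a : ℕ) : ℝ) ^ (1 - ε) * n ^ 2 = (n : ℝ) ^ ((a : ℝ) * (1 - ε) + 2) := by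
    rw [Real.rpow_add h0, Real.rpow_mul h0.le, Real.rpow_natCast]
    push_cast
    congr 1
    rw [← Real.rpow_natCast]
    norm_num
  have h2 : (n : ℝ) ^ ((a : ℝ) * (1 - ε) + 2) ≤ (n : ℝ) ^ (a : ℝ) :=
    Real.rpow_le_rpow_of_exponent_le hn' (by nlinarith)
  rw [Real.rpow_natCast] at h2
  have hp : 0 ≤ ((n ^ a : ℕ) : ℝ) ^ (1 - ε) := Real.rpow_nonneg (Nat.cast_nonneg _) _
  have h3 : (k : ℝ) * n ≤ (n : ℝ) ^ a := by
    calc (k : ℝ) * n ≤ (ρ * x) * n := mul_le_mul_of_nonneg_right hk h0.le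
      _ ≤ (ρ * ((n ^ a : ℕ) : ℝ) ^ (1 - ε)) * n :=
          mul_le_mul_of_nonneg_right (mul_le_mul_of_nonneg_left hx (Nat.cast_nonneg _)) h0.le
      _ ≤ (n * ((n ^ a : ℕ) : ℝ) ^ (1 - ε)) * n :=
          mul_le_mul_of_nonneg_right (mul_le_mul_of_nonneg_right hρ' hp) h0.le
      _ = ((n ^ a : ℕ) : ℝ) ^ (1 - ε) * n ^ 2 := by ring
      _ = _ := h1
      _ ≤ _ := h2
  exact_mod_cast h3

/-- the inequality for ONN -/
theorem NPB_ineq (ε H P Lg Sm k N : ℝ) (hε : 0 < ε) (hε1 : ε < 1) (hH : 0 < H) (hP : (1 + ε) * H ≤ P * Lg)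
    (hLg : 0 < Lg) (hS : (1 - ε / 4) * Lg ≤ Sm) (hN : 8 / ε < N) (hk : k ≤ N) :
    H * (1 + 4 * k / N ^ 2) < P * Sm := by
  have hN0 : 0 < N := lt_trans (by positivity) hN
  have hP0 : 0 < P := by
    by_contra hneg
    rw [not_lt] at hneg
    have h1 : P * Lg ≤ 0 := mul_nonpos_of_nonpos_of_nonneg hneg hLg.le
    have h2 : 0 < (1 + ε) * H := by positivity
    linarith
  have h1 : 4 * k / N ^ 2 ≤ 4 / N := by
    rw [div_le_div_iff₀ (by positivity) hN0]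
    nlinarith
  have h2 : 4 / N < ε / 2 := by
    rw [div_lt_iff₀ hε] at hN
    rw [div_lt_div_iff₀ hN0 two_pos]
    linarith
  have h3 : P * ((1 - ε / 4) * Lg) ≤ P * Sm := mul_le_mul_of_nonneg_left hS hP0.le
  have h4 : (1 - ε / 4) * ((1 + ε) * H) ≤ (1 - ε / 4) * (P * Lg) :=
    mul_le_mul_of_nonneg_left hP (by linarith)
  have h5 : H * (1 + ε / 2) ≤ (1 - ε / 4) * ((1 + ε) * H) := by
    have : 0 ≤ H * (ε / 4 * (1 - ε)) := by
      have : 0 ≤ 1 - ε := by linarith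
      positivity
    nlinarith
  have h6 : H * (1 + 4 * k / N ^ 2) < H * (1 + ε / 2) := mul_lt_mul_of_pos_left (by linarith) hH
  calc H * (1 + 4 * k / N ^ 2) < H * (1 + ε / 2) := h6
    _ ≤ (1 - ε / 4) * ((1 + ε) * H) := h5
    _ ≤ (1 - ε / 4) * (P * Lg) := h4
    _ = P * ((1 - ε / 4) * Lg) := by ring
    _ ≤ P * Sm := h3

/-- the estimate for the last size -/
theorem NPB_est (n N w k c c2 j : ℕ) (hN : 2 ≤ N) (hn : n ≤ N) (hj : j ≤ N) (hc2 : c2 ≤ N)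
    (hk : k + k * w ≤ N ^ (c + 4)) :
    (N ^ c2 + c2) + N + (k + k * w) + n + j + N ^ 2 + 2 ≤ N ^ (c2 + c + 8) := by
  have h1 : N ^ c2 + c2 ≤ N ^ (c2 + 2) := PUB_pow N c2 hN hc2
  have h2 : N ^ (c2 + 2) ≤ N ^ (c2 + c + 4) := Nat.pow_le_pow_right (by omega) (by omega)
  have h3 : N ^ (c + 4) ≤ N ^ (c2 + c + 4) := Nat.pow_le_pow_right (by omega) (by omega)
  have h4 : N ≤ N ^ (c2 + c + 4) := by
    calc N = N ^ 1 := (pow_one N).symm
      _ ≤ N ^ (c2 + c + 4) := Nat.pow_le_pow_right (by omega) (by omega)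
  have h4' : N ^ 2 ≤ N ^ (c2 + c + 4) := Nat.pow_le_pow_right (by omega) (by omega)
  have h5 : 16 * N ^ (c2 + c + 4) ≤ N ^ (c2 + c + 8) := by
    have : N ^ (c2 + c + 8) = N ^ 4 * N ^ (c2 + c + 4) := by ring
    rw [this]
    exact Nat.mul_le_mul_right _ (by
      calc 16 = 2 ^ 4 := by norm_num
        _ ≤ N ^ 4 := Nat.pow_le_pow_left hN _)
  omega

theorem NPB (hONN : ONN_stmt) (hSVS : SVS_stmt) (hUPN : UPN_stmt) (hNUM : NUM_stmt) (hNCL : NCL_stmt) :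
    NPB_stmt := by
  have hDNF : DNF_stmt :=
    Pool.Agent.PB.DNF (Pool.Agent.PB.CLP (Pool.Agent.PB.CMP Pool.Agent.PB.APP Pool.Agent.PB.SUB))
  intro ε j m M p hε hε1 hj hMm hev hAll c
  obtain ⟨a0, ha0⟩ := exists_nat_gt (8 / ε)
  have ha : 4 ≤ ((a0 + 1 : ℕ) : ℝ) * ε := by
    have h1 : 8 / ε * ε = 8 := by field_simp
    have h2 : 8 / ε * ε ≤ (a0 : ℝ) * ε := mul_le_mul_of_nonneg_right ha0.le hε.le
    push_cast
    nlinarith
  obtain ⟨ρ, hρ⟩ := hNUM (ε / 4) (by linarith)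
  obtain ⟨c2, hc2⟩ := hUPN m (fun _ => Set.Icc 1 j) p hAll (8 * (c + 5))
  obtain ⟨N0, hN0⟩ := eventually_atTop.1 hev
  set n1 : ℕ := N0 + c + c2 + a0 + ρ + j + 2 with hn1def
  obtain ⟨S, hS⟩ := PUB_fin hDNF n1
  refine ⟨S + (a0 + 1) * (c2 + c + 8) * 30, fun n w f hw hf => ?_⟩
  by_cases hn : n < n1
  · refine ⟨fun x => decide (wit f x = 0), hNCL.2.1 n S _ _ (hNCL.1 n S _ (hS n hn _)) ?_,
      fun x hx => ?_, fun x hx => ?_⟩
    · omega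
    · simp [hx]
    · simp [hx]
  · have hn1 : 2 ≤ n := by omega
    have hnN : n ≤ n ^ (a0 + 1) := by
      calc n = n ^ 1 := (pow_one n).symm
        _ ≤ n ^ (a0 + 1) := Nat.pow_le_pow_right (by omega) (by omega)
    obtain ⟨q1, q2, q3⟩ := hN0 (n ^ (a0 + 1)) (by omega)
    obtain ⟨k, l, hl, hlk, hch, hk, hsum⟩ := hρ (M (n ^ (a0 + 1))) q1
    have h : k * n ≤ n ^ (a0 + 1) :=
      NPB_kn ε (a0 + 1) n ρ k _ (by omega) (by omega) ha hε q2 hk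
    have hkN : k ≤ n ^ (a0 + 1) := (Nat.le_mul_of_pos_right k (by omega)).trans h
    obtain ⟨e1, e2⟩ := PUB_est1 n (n ^ (a0 + 1)) w k k c (n ^ c + c) hn1 (by omega) hnN hw rfl hkN hkN
    have e3 := NPB_est n (n ^ (a0 + 1)) w k c c2 j (hn1.trans hnN) hnN (by omega) (by omega) e1
    have hP : PrunN (m (n ^ (a0 + 1))) (Set.Icc 1 j) (p (n ^ (a0 + 1))) ((n ^ (a0 + 1)) ^ c2 + c2)
        (subV f (n ^ (a0 + 1)) l h) := by
      apply hc2
      · refine e1.trans ((Nat.pow_le_pow_right (by omega) ?_).trans (Nat.le_add_right _ _))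
        omega
      · refine PUB_mono (hSVS n w k (n ^ (a0 + 1)) l (n ^ c + c) ((n ^ (a0 + 1)) ^ (c + 5)) f h hf
          (by omega)) ?_
        rw [← pow_mul, mul_comm (c + 5) 8]
        exact Nat.le_add_right _ _
    have hG : 4 ≤ (n ^ (a0 + 1)) ^ 2 := by
      calc 4 = 2 ^ 2 := by norm_num
        _ ≤ (n ^ (a0 + 1)) ^ 2 := Nat.pow_le_pow_left (hn1.trans hnN) 2
    have hH : 0 < (harmonic j : ℝ) := by
      have h1 : 0 < harmonic j := harmonic_pos (by omega)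
      exact_mod_cast h1
    have hLg : 0 < Real.log (M (n ^ (a0 + 1))) := Real.log_pos (by exact_mod_cast q1)
    have hineq : (harmonic j : ℝ) * (1 + 4 * k / (((n ^ (a0 + 1)) ^ 2 : ℕ) : ℝ)) <
        p (n ^ (a0 + 1)) * ∑ r ∈ Finset.Icc l k, (l : ℝ) / (r : ℝ) := by
      have hcast : (((n ^ (a0 + 1)) ^ 2 : ℕ) : ℝ) = (((n ^ (a0 + 1) : ℕ) : ℝ)) ^ 2 := by push_cast; ring
      rw [hcast]
      refine NPB_ineq ε _ _ (Real.log (M (n ^ (a0 + 1)))) _ k _ hε hε1 hH q3 hLg hsum ?_ ?_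
      · refine ha0.trans_le ?_
        exact_mod_cast (by omega : a0 ≤ n ^ (a0 + 1))
      · exact_mod_cast hkN
    obtain ⟨D, hD1, hD2, hD3⟩ := hONN n w (n ^ (a0 + 1)) k l j (m (n ^ (a0 + 1)))
      ((n ^ (a0 + 1)) ^ c2 + c2) ((n ^ (a0 + 1)) ^ 2) ((n ^ (a0 + 1)) ^ (c2 + c + 8)) (p (n ^ (a0 + 1)))
      f h hl hlk (hch.trans (hMm _)) hG hP hineq e3
    refine ⟨D, hNCL.2.1 n _ _ _ hD1 ?_, hD2, hD3⟩
    rw [← pow_mul, ← pow_mul]
    refine (Nat.pow_le_pow_right (by omega) ?_).trans (Nat.le_add_right _ _)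
    rw [← mul_assoc]
    exact Nat.le_add_left _ _

end Pool.Agent.VVO
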